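import Pool.Agent.H15.U.Defs2
import Pool.Agent.H26.U.Ez

/-!
# Project U2 (MP_0c7934_co), module FAM: the amplitude modulated family
-/

namespace Pool.Agent.H20.U

open Pool.Agent.H26.U Pool.Agent.H15.U Finset

/-! ### The sine and cosine estimates -/

theorem sin_lo : Monotone (fun x : ℝ => Real.sin x - x + x ^ 3 / 6) := by
  apply monotone_of_deriv_nonneg
  · fun_prop
  · intro x
    have h : HasDerivAt (fun x : ℝ => Real.sin x - x + x ^ 3 / 6)
        (Real.cos x - 1 + (3 * x ^ 2 * 1) / 6) x := by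
      have h1 := (Real.hasDerivAt_sin x).sub (hasDerivAt_id x)
      have h2 := ((hasDerivAt_id x).pow 3).div_const 6
      exact h1.add h2
    rw [h.deriv]
    have := Real.one_sub_sq_div_two_le_cos (x := x)
    linarith

theorem abs_sub_sin (x : ℝ) : |x - Real.sin x| ≤ |x| ^ 3 / 6 := by
  rcases le_total 0 x with h | h
  · have h1 := sin_lo h
    simp only [Real.sin_zero] at h1
    have h2 : Real.sin x ≤ x := Real.sin_le h
    rw [abs_of_nonneg h, abs_of_nonneg (by linarith)]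
    linarith
  · have h1 := sin_lo h
    simp only [Real.sin_zero] at h1
    have h2 : x ≤ Real.sin x := by
      have := Real.sin_le (x := -x) (by linarith)
      rw [Real.sin_neg] at this
      linarith
    rw [abs_of_nonpos h, abs_of_nonpos (by linarith)]
    have : (-x) ^ 3 = -x ^ 3 := by ring
    rw [this]
    linarith

/-- `g (p) = cos p - 1 + p² / 2` -/
noncomputable def gg (p : ℝ) : ℝ := Real.cos p - 1 + p ^ 2 / 2

theorem gg_lip (p q M : ℝ) (hp : |p| ≤ M) (hq : |q| ≤ M) :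
    |gg p - gg q| ≤ M ^ 3 / 6 * |p - q| := by
  have hM : 0 ≤ M := (abs_nonneg p).trans hp
  have hd : ∀ t ∈ Set.Icc (-M) M, HasDerivWithinAt gg (t - Real.sin t) (Set.Icc (-M) M) t := by
    intro t _
    have h1 := ((Real.hasDerivAt_cos t).sub_const 1).add (((hasDerivAt_id t).pow 2).div_const 2)
    have h2 : HasDerivAt gg (t - Real.sin t) t := by
      refine HasDerivAt.congr_deriv h1 ?_
      simp
      ring
    exact h2.hasDerivWithinAt
  have hb : ∀ t ∈ Set.Icc (-M) M, ‖t - Real.sin t‖ ≤ M ^ 3 / 6 := by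
    intro t ht
    rw [Real.norm_eq_abs]
    refine (abs_sub_sin t).trans ?_
    have : |t| ≤ M := abs_le.mpr ht
    have := pow_le_pow_left₀ (abs_nonneg t) this 3
    linarith
  have := (convex_Icc (-M) M).norm_image_sub_le_of_norm_hasDerivWithin_le hd hb
    (x := q) (y := p) (abs_le.mp hq) (abs_le.mp hp)
  rw [Real.norm_eq_abs, Real.norm_eq_abs] at this
  exact this

theorem cos_six (p : ℝ) (hp : |p| ≤ 2) :
    |Real.cos p - (1 - p ^ 2 / 2 + p ^ 4 / 24)| ≤ p ^ 6 / 360 := by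
  have h := Complex.exp_bound' (x := (p : ℂ) * Complex.I) (n := 6) (by
    rw [norm_mul, Complex.norm_I, mul_one, Complex.norm_real, Real.norm_eq_abs]
    have : ((Nat.succ 6 : ℕ) : ℝ) = 7 := by norm_num
    rw [this]
    linarith)
  have h2 := (Complex.abs_re_le_norm _).trans h
  rw [norm_mul, Complex.norm_I, mul_one, Complex.norm_real, Real.norm_eq_abs] at h2
  have h3 : |p| ^ 6 = p ^ 6 := by
    rw [show (6 : ℕ) = 2 * 3 by norm_num, pow_mul, pow_mul, sq_abs]
  rw [h3] at h2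
  have h4 : (Complex.exp ((p : ℂ) * Complex.I) -
      ∑ m ∈ range 6, ((p : ℂ) * Complex.I) ^ m / (m.factorial : ℂ)).re =
      Real.cos p - (1 - p ^ 2 / 2 + p ^ 4 / 24) := by
    rw [Complex.sub_re, Complex.exp_ofReal_mul_I_re]
    congr 1
    have e : ∑ m ∈ range 6, ((p : ℂ) * Complex.I) ^ m / (m.factorial : ℂ) =
        ((1 - p ^ 2 / 2 + p ^ 4 / 24 : ℝ) : ℂ) +
          ((p - p ^ 3 / 6 + p ^ 5 / 120 : ℝ) : ℂ) * Complex.I := by
      rw [Finset.sum_range_succ, Finset.sum_range_succ, Finset.sum_range_succ,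
        Finset.sum_range_succ, Finset.sum_range_succ, Finset.sum_range_succ, Finset.sum_range_zero]
      simp only [Nat.factorial]
      have i2 : Complex.I ^ 2 = -1 := Complex.I_sq
      have i3 : Complex.I ^ 3 = -Complex.I := by rw [pow_succ, i2]; ring
      have i4 : Complex.I ^ 4 = 1 := Complex.I_pow_four
      have i5 : Complex.I ^ 5 = Complex.I := by rw [pow_succ, i4]; ring
      simp only [mul_pow, i2, i3, i4, i5]
      push_cast
      ring
    rw [e, Complex.add_re, Complex.ofReal_re, Complex.mul_I_re, Complex.ofReal_im]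
    ring
  rw [h4] at h2
  refine h2.trans (le_of_eq ?_)
  have : ((Nat.factorial 6 : ℕ) : ℝ) = 720 := by
    norm_num [Nat.factorial]
  rw [this]
  ring

/-! ### The sum over the sixth roots of unity -/

/-- the three phases -/
noncomputable def ph (k : Fin 3) (W : ℂ) : ℝ :=
  match k with
  | 0 => W.re
  | 1 => W.re / 2 - √3 / 2 * W.im
  | 2 => W.re / 2 + √3 / 2 * W.im

noncomputable def c6 (W : ℂ) : ℝ := 2 * ∑ k, Real.cos (ph k W)

theorem sqrt3 : √(3 : ℝ) ^ 2 = 3 := Real.sq_sqrt (by norm_num)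

theorem ph_sq (W : ℂ) : ∑ k, ph k W ^ 2 = 3 / 2 * Complex.normSq W := by
  rw [Fin.sum_univ_three, Complex.normSq_apply]
  simp only [ph]
  have := sqrt3
  ring_nf
  rw [this]
  ring

theorem ph_four (W : ℂ) : ∑ k, ph k W ^ 4 = 9 / 8 * Complex.normSq W ^ 2 := by
  rw [Fin.sum_univ_three, Complex.normSq_apply]
  simp only [ph]
  have h2 := sqrt3
  have h4 : √(3 : ℝ) ^ 4 = 9 := by
    have : √(3 : ℝ) ^ 4 = (√(3 : ℝ) ^ 2) ^ 2 := by ring
    rw [this, h2]
    norm_num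
  ring_nf
  rw [h2, h4]
  ring

theorem ph_le (W : ℂ) (k : Fin 3) : ph k W ^ 2 ≤ Complex.normSq W := by
  rw [Complex.normSq_apply]
  have h2 := sqrt3
  fin_cases k
  · simp only [ph]
    nlinarith [sq_nonneg W.im]
  · simp only [ph]
    nlinarith [sq_nonneg (√3 / 2 * W.re + W.im / 2)]
  · simp only [ph]
    nlinarith [sq_nonneg (√3 / 2 * W.re - W.im / 2)]

theorem ph_sub (W V : ℂ) (k : Fin 3) : ph k W - ph k V = ph k (W - V) := by
  fin_cases k
  · simp only [ph, Complex.sub_re]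
  · simp only [ph, Complex.sub_re, Complex.sub_im]
    ring
  · simp only [ph, Complex.sub_re, Complex.sub_im]
    ring

theorem ph_abs (W : ℂ) (k : Fin 3) : |ph k W| ≤ ‖W‖ := by
  apply abs_le_of_sq_le_sq _ (norm_nonneg _)
  rw [Complex.sq_norm]
  exact ph_le W k

theorem c6_eq (W : ℂ) : c6 W = 6 - 3 / 2 * Complex.normSq W + 2 * ∑ k, gg (ph k W) := by
  have h := ph_sq W
  simp only [Fin.sum_univ_three] at h
  rw [c6]
  simp only [Fin.sum_univ_three, gg]
  linarith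

theorem sum_e6 (W : ℂ) :
    ∑ i : Fin 6, Complex.exp (Complex.I * (((W * e6 i).re : ℝ) : ℂ)) = (c6 W : ℂ) := by
  have hc1 : Real.cos (Real.pi / 3) = 1 / 2 := Real.cos_pi_div_three
  have hs1 : Real.sin (Real.pi / 3) = √3 / 2 := Real.sin_pi_div_three
  have key : ∀ i : Fin 6, (W * e6 i).re =
      W.re * Real.cos (Real.pi * (i : ℕ) / 3) - W.im * Real.sin (Real.pi * (i : ℕ) / 3) := by
    intro i
    rw [e6, mul_comm Complex.I, Complex.mul_re, Complex.exp_ofReal_mul_I_re,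
      Complex.exp_ofReal_mul_I_im]
  have v0 : (W * e6 0).re = ph 0 W := by
    rw [key]
    simp [ph]
  have v1 : (W * e6 1).re = ph 1 W := by
    rw [key]
    have : Real.pi * ((1 : Fin 6) : ℕ) / 3 = Real.pi / 3 := by simp
    rw [this, hc1, hs1, ph]
    ring
  have v2 : (W * e6 2).re = -ph 2 W := by
    rw [key]
    have : Real.pi * ((2 : Fin 6) : ℕ) / 3 = Real.pi - Real.pi / 3 := by
      have : (((2 : Fin 6) : ℕ) : ℝ) = 2 := by norm_num
      rw [this]
      ring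
    rw [this, Real.cos_pi_sub, Real.sin_pi_sub, hc1, hs1, ph]
    ring
  have v3 : (W * e6 3).re = -ph 0 W := by
    rw [key]
    have : Real.pi * ((3 : Fin 6) : ℕ) / 3 = Real.pi := by
      have : (((3 : Fin 6) : ℕ) : ℝ) = 3 := by norm_num
      rw [this]
      ring
    rw [this, Real.cos_pi, Real.sin_pi, ph]
    ring
  have v4 : (W * e6 4).re = -ph 1 W := by
    rw [key]
    have : Real.pi * ((4 : Fin 6) : ℕ) / 3 = Real.pi / 3 + Real.pi := by
      have : (((4 : Fin 6) : ℕ) : ℝ) = 4 := by norm_num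
      rw [this]
      ring
    rw [this, Real.cos_add_pi, Real.sin_add_pi, hc1, hs1, ph]
    ring
  have v5 : (W * e6 5).re = ph 2 W := by
    rw [key]
    have : Real.pi * ((5 : Fin 6) : ℕ) / 3 = 2 * Real.pi - Real.pi / 3 := by
      have : (((5 : Fin 6) : ℕ) : ℝ) = 5 := by norm_num
      rw [this]
      ring
    rw [this, Real.cos_two_pi_sub, Real.sin_two_pi_sub, hc1, hs1, ph]
    ring
  have hexp : ∀ t : ℝ, Complex.exp (Complex.I * (t : ℂ)) + Complex.exp (Complex.I * ((-t : ℝ) : ℂ))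
      = ((2 * Real.cos t : ℝ) : ℂ) := by
    intro t
    rw [mul_comm Complex.I, mul_comm Complex.I]
    apply Complex.ext
    · rw [Complex.add_re, Complex.exp_ofReal_mul_I_re, Complex.exp_ofReal_mul_I_re, Real.cos_neg,
        Complex.ofReal_re]
      ring
    · rw [Complex.add_im, Complex.exp_ofReal_mul_I_im, Complex.exp_ofReal_mul_I_im, Real.sin_neg,
        Complex.ofReal_im]
      ring
  rw [Fin.sum_univ_six, v0, v1, v2, v3, v4, v5, c6, Fin.sum_univ_three]
  have h0 := hexp (ph 0 W)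
  have h1 := hexp (ph 1 W)
  have h2 := hexp (ph 2 W)
  push_cast at h0 h1 h2 ⊢
  linear_combination h0 + h1 + h2

/-! ### The pointwise estimate -/

/-- `W = α u - β u'` -/
noncomputable def wf (u u' : ℂ) (α β : ℝ) : ℂ := (α : ℂ) * u - (β : ℂ) * u'

theorem normSq_wf (u u' : ℂ) (hu : ‖u‖ = 1) (hu' : ‖u'‖ = 1) (s : ℝ)
    (hs : (u * star u').re = 1 - 2 * s ^ 2) (α β : ℝ) :
    Complex.normSq (wf u u' α β) = (α - β) ^ 2 + 4 * s ^ 2 * (α * β) := by
  have h1 : u.re * u.re + u.im * u.im = 1 := by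
    rw [← Complex.normSq_apply, Complex.normSq_eq_norm_sq, hu]
    norm_num
  have h2 : u'.re * u'.re + u'.im * u'.im = 1 := by
    rw [← Complex.normSq_apply, Complex.normSq_eq_norm_sq, hu']
    norm_num
  have h3 : u.re * u'.re + u.im * u'.im = 1 - 2 * s ^ 2 := by
    rw [Complex.star_def, Complex.mul_re, Complex.conj_re, Complex.conj_im] at hs
    linarith
  rw [Complex.normSq_apply, wf]
  simp only [Complex.sub_re, Complex.sub_im, Complex.re_ofReal_mul, Complex.im_ofReal_mul]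
  linear_combination α ^ 2 * h1 + β ^ 2 * h2 - 2 * α * β * h3

theorem norm_wf_le (u u' : ℂ) (hu : ‖u‖ = 1) (hu' : ‖u'‖ = 1) (α β : ℝ) :
    ‖wf u u' α β‖ ≤ |α| + |β| := by
  rw [wf]
  refine (norm_sub_le _ _).trans ?_
  rw [norm_mul, norm_mul, hu, hu', Complex.norm_real, Complex.norm_real, Real.norm_eq_abs,
    Real.norm_eq_abs, mul_one, mul_one]

theorem wf_sub (u u' : ℂ) (α β γ δ : ℝ) :
    wf u u' α β - wf u u' γ δ = wf u u' (α - γ) (β - δ) := by
  simp only [wf]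
  push_cast
  ring

theorem pt_lip (u u' : ℂ) (hu : ‖u‖ = 1) (hu' : ‖u'‖ = 1) (s : ℝ)
    (hs : (u * star u').re = 1 - 2 * s ^ 2) (lam r r' q q' : ℝ) (hl : 0 ≤ lam)
    (hr : |r| ≤ 1) (hr' : |r'| ≤ 1) (hq : |q| ≤ 1) (hq' : |q'| ≤ 1) :
    |c6 (wf u u' (lam + r) (lam + r')) - c6 (wf u u' (lam + q) (lam + q')) +
      6 * lam * s ^ 2 * ((r - q) + (r' - q'))| ≤
      (|r - q| + |r' - q'|) * (32 * lam ^ 3 + 18 * ((|r| + |r'|) + (|q| + |q'|))) := by
  have hW := c6_eq (wf u u' (lam + r) (lam + r'))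
  have hV := c6_eq (wf u u' (lam + q) (lam + q'))
  rw [normSq_wf u u' hu hu' s hs] at hW hV
  have hz1 := normSq_wf u u' hu hu' s hs r r'
  have hz2 := normSq_wf u u' hu hu' s hs q q'
  -- the quadratic part
  have hA : |Complex.normSq (wf u u' r r') - Complex.normSq (wf u u' q q')| ≤
      (|r - q| + |r' - q'|) * ((|r| + |r'|) + (|q| + |q'|)) := by
    have e1 : Complex.normSq (wf u u' r r') - Complex.normSq (wf u u' q q') =
        (‖wf u u' r r'‖ - ‖wf u u' q q'‖) * (‖wf u u' r r'‖ + ‖wf u u' q q'‖) := by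
      rw [Complex.normSq_eq_norm_sq, Complex.normSq_eq_norm_sq]
      ring
    rw [e1, abs_mul]
    apply mul_le_mul
    · refine (abs_norm_sub_norm_le _ _).trans ?_
      rw [wf_sub]
      exact norm_wf_le u u' hu hu' _ _
    · rw [abs_of_nonneg (by positivity)]
      have h1 := norm_wf_le u u' hu hu' r r'
      have h2 := norm_wf_le u u' hu hu' q q'
      linarith
    · exact abs_nonneg _
    · positivity
  -- the remainder
  obtain ⟨S, hS⟩ : ∃ S, S = (|r| + |r'|) + (|q| + |q'|) := ⟨_, rfl⟩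
  obtain ⟨D, hD⟩ : ∃ D, D = |r - q| + |r' - q'| := ⟨_, rfl⟩
  obtain ⟨m, hm⟩ : ∃ m, m = max (|r| + |r'|) (|q| + |q'|) := ⟨_, rfl⟩
  have hm1 : |r| + |r'| ≤ m := by rw [hm]; exact le_max_left _ _
  have hm2 : |q| + |q'| ≤ m := by rw [hm]; exact le_max_right _ _
  have hm3 : m ≤ 2 := by rw [hm]; exact max_le (by linarith) (by linarith)
  have hm4 : m ≤ S := by
    rw [hm, hS]
    exact max_le (by linarith [abs_nonneg q, abs_nonneg q']) (by linarith [abs_nonneg r, abs_nonneg r'])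
  have hm0 : 0 ≤ m := by linarith [abs_nonneg r, abs_nonneg r']
  have hD0 : 0 ≤ D := by rw [hD]; positivity
  have hM3 : (2 * lam + m) ^ 3 ≤ 32 * lam ^ 3 + 16 * S := by
    have h1 : (2 * lam + m) ^ 3 ≤ 4 * ((2 * lam) ^ 3 + m ^ 3) := by
      nlinarith [mul_nonneg (add_nonneg (mul_nonneg (by norm_num : (0 : ℝ) ≤ 2) hl) hm0)
        (sq_nonneg (2 * lam - m))]
    have h2 : m ^ 3 ≤ 4 * m := by
      have : m ^ 2 ≤ 4 := by nlinarith
      nlinarith
    nlinarith
  have hB : ∀ k, |gg (ph k (wf u u' (lam + r) (lam + r'))) -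
      gg (ph k (wf u u' (lam + q) (lam + q')))| ≤ (2 * lam + m) ^ 3 / 6 * D := by
    intro k
    have b1 : |ph k (wf u u' (lam + r) (lam + r'))| ≤ 2 * lam + m := by
      refine (ph_abs _ k).trans ((norm_wf_le u u' hu hu' _ _).trans ?_)
      have h1 := abs_add_le lam r
      have h2 := abs_add_le lam r'
      rw [abs_of_nonneg hl] at h1 h2
      linarith
    have b2 : |ph k (wf u u' (lam + q) (lam + q'))| ≤ 2 * lam + m := by
      refine (ph_abs _ k).trans ((norm_wf_le u u' hu hu' _ _).trans ?_)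
      have h1 := abs_add_le lam q
      have h2 := abs_add_le lam q'
      rw [abs_of_nonneg hl] at h1 h2
      linarith
    refine (gg_lip _ _ _ b1 b2).trans ?_
    apply mul_le_mul_of_nonneg_left _ (by positivity)
    rw [ph_sub, wf_sub]
    refine (ph_abs _ k).trans ((norm_wf_le u u' hu hu' _ _).trans ?_)
    rw [hD, add_sub_add_left_eq_sub, add_sub_add_left_eq_sub]
  have hC : |2 * (∑ k, gg (ph k (wf u u' (lam + r) (lam + r'))) -
      ∑ k, gg (ph k (wf u u' (lam + q) (lam + q'))))| ≤ (2 * lam + m) ^ 3 * D := by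
    rw [abs_mul, ← Finset.sum_sub_distrib, abs_of_pos (by norm_num : (0 : ℝ) < 2)]
    have h1 := Finset.abs_sum_le_sum_abs (fun k => gg (ph k (wf u u' (lam + r) (lam + r'))) -
      gg (ph k (wf u u' (lam + q) (lam + q')))) (Finset.univ : Finset (Fin 3))
    have h2 := Finset.sum_le_sum (fun k (_ : k ∈ (Finset.univ : Finset (Fin 3))) => hB k)
    rw [Finset.sum_const, Finset.card_univ, Fintype.card_fin, nsmul_eq_mul] at h2
    push_cast at h2
    linarith
  have key : c6 (wf u u' (lam + r) (lam + r')) - c6 (wf u u' (lam + q) (lam + q')) +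
      6 * lam * s ^ 2 * ((r - q) + (r' - q')) =
      -(3 / 2) * (Complex.normSq (wf u u' r r') - Complex.normSq (wf u u' q q')) +
      2 * (∑ k, gg (ph k (wf u u' (lam + r) (lam + r'))) -
        ∑ k, gg (ph k (wf u u' (lam + q) (lam + q')))) := by
    rw [hW, hV, hz1, hz2]
    ring
  rw [key, ← hS, ← hD]
  refine (abs_add_le _ _).trans ?_
  rw [abs_mul]
  have h9 : |(-(3 / 2) : ℝ)| = 3 / 2 := by
    rw [abs_neg, abs_of_pos (by norm_num)]
  rw [h9]
  rw [← hS, ← hD] at hA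
  have hE : (2 * lam + m) ^ 3 * D ≤ (32 * lam ^ 3 + 16 * S) * D :=
    mul_le_mul_of_nonneg_right hM3 hD0
  have hS0 : 0 ≤ S := hm0.trans hm4
  have : 0 ≤ D * S := mul_nonneg hD0 hS0
  nlinarith

theorem pt_static (u u' : ℂ) (hu : ‖u‖ = 1) (hu' : ‖u'‖ = 1) (s : ℝ)
    (hs : (u * star u').re = 1 - 2 * s ^ 2) (lam : ℝ) (hl : 0 ≤ lam) (hl1 : lam ≤ 1) :
    |c6 (wf u u' lam lam) - (6 - 6 * lam ^ 2 * s ^ 2 + 3 / 2 * lam ^ 4 * s ^ 4)| ≤ lam ^ 6 := by
  have hN := normSq_wf u u' hu hu' s hs lam lam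
  have hN' : Complex.normSq (wf u u' lam lam) = 4 * s ^ 2 * lam ^ 2 := by
    rw [hN]
    ring
  have hNle : Complex.normSq (wf u u' lam lam) ≤ 4 * lam ^ 2 := by
    have h1 := norm_wf_le u u' hu hu' lam lam
    rw [abs_of_nonneg hl] at h1
    rw [Complex.normSq_eq_norm_sq]
    have := pow_le_pow_left₀ (norm_nonneg _) h1 2
    nlinarith
  have hN0 : 0 ≤ Complex.normSq (wf u u' lam lam) := Complex.normSq_nonneg _
  have h2 := ph_sq (wf u u' lam lam)
  have h4 := ph_four (wf u u' lam lam)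
  have hle := ph_le (wf u u' lam lam)
  obtain ⟨N, hNN⟩ : ∃ N, N = Complex.normSq (wf u u' lam lam) := ⟨_, rfl⟩
  rw [← hNN] at h2 h4 hle hN' hNle hN0
  have hb : ∀ k, |Real.cos (ph k (wf u u' lam lam)) - (1 - ph k (wf u u' lam lam) ^ 2 / 2 +
      ph k (wf u u' lam lam) ^ 4 / 24)| ≤ N / 360 * ph k (wf u u' lam lam) ^ 4 := by
    intro k
    have h5 : |ph k (wf u u' lam lam)| ≤ 2 := by
      apply abs_le_of_sq_le_sq _ (by norm_num)
      have := hle k
      nlinarith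
    refine (cos_six _ h5).trans ?_
    have h6 : ph k (wf u u' lam lam) ^ 6 =
        ph k (wf u u' lam lam) ^ 2 * ph k (wf u u' lam lam) ^ 4 := by ring
    rw [h6]
    have h7 := mul_le_mul_of_nonneg_right (hle k)
      (by positivity : 0 ≤ ph k (wf u u' lam lam) ^ 4)
    linarith
  have hs1 := Finset.abs_sum_le_sum_abs (fun k => Real.cos (ph k (wf u u' lam lam)) -
    (1 - ph k (wf u u' lam lam) ^ 2 / 2 + ph k (wf u u' lam lam) ^ 4 / 24))
    (Finset.univ : Finset (Fin 3))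
  have hs2 := Finset.sum_le_sum (fun k (_ : k ∈ (Finset.univ : Finset (Fin 3))) => hb k)
  rw [← Finset.mul_sum, h4] at hs2
  have e : ∑ k, (Real.cos (ph k (wf u u' lam lam)) -
      (1 - ph k (wf u u' lam lam) ^ 2 / 2 + ph k (wf u u' lam lam) ^ 4 / 24)) =
      c6 (wf u u' lam lam) / 2 - (3 - 3 / 4 * N + 3 / 64 * N ^ 2) := by
    rw [c6]
    rw [Fin.sum_univ_three] at h2 h4 ⊢
    rw [Fin.sum_univ_three]
    linarith
  rw [e] at hs1
  have e2 : 6 - 6 * lam ^ 2 * s ^ 2 + 3 / 2 * lam ^ 4 * s ^ 4 =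
      2 * (3 - 3 / 4 * N + 3 / 64 * N ^ 2) := by
    rw [hN']
    ring
  rw [e2]
  have e3 : c6 (wf u u' lam lam) - 2 * (3 - 3 / 4 * N + 3 / 64 * N ^ 2) =
      2 * (c6 (wf u u' lam lam) / 2 - (3 - 3 / 4 * N + 3 / 64 * N ^ 2)) := by ring
  rw [e3, abs_mul, abs_of_pos (by norm_num : (0 : ℝ) < 2)]
  have h8 : N ^ 3 ≤ 64 * lam ^ 6 := by
    have := pow_le_pow_left₀ hN0 hNle 3
    calc N ^ 3 ≤ (4 * lam ^ 2) ^ 3 := this
      _ = 64 * lam ^ 6 := by ring
  have h9 : N / 360 * (9 / 8 * N ^ 2) = N ^ 3 / 320 := by ring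
  rw [h9] at hs2
  have h10 := hs1.trans hs2
  have h11 : 0 ≤ lam ^ 6 := by positivity
  linarith

/-! ### The theorem -/

theorem acf_fam {n : ℕ} [NeZero n] (κ : ZMod n → ℝ) (m x : ZMod n) :
    ∑ i, acf (fam κ m i) x = ∑ y, ez (2 * x * y - x ^ 2) *
      (c6 (wf (ez (2 * m * y)) (ez (2 * m * (y - x))) (κ y) (κ (y - x))) : ℂ) := by
  simp only [acf]
  rw [Finset.sum_comm]
  apply Finset.sum_congr rfl
  intro y _
  rw [← sum_e6, Finset.mul_sum]
  apply Finset.sum_congr rfl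
  intro i _
  simp only [fam]
  have hst : ∀ t : ℝ, star (Complex.exp (Complex.I * (t : ℂ))) =
      Complex.exp (Complex.I * ((-t : ℝ) : ℂ)) := by
    intro t
    rw [Complex.star_def, ← Complex.exp_conj, map_mul, Complex.conj_I, Complex.conj_ofReal]
    congr 1
    push_cast
    ring
  have h1 : (wf (ez (2 * m * y)) (ez (2 * m * (y - x))) (κ y) (κ (y - x)) * e6 i).re =
      κ y * (ez (2 * m * y) * e6 i).re + -(κ (y - x) * (ez (2 * m * (y - x)) * e6 i).re) := by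
    have : wf (ez (2 * m * y)) (ez (2 * m * (y - x))) (κ y) (κ (y - x)) * e6 i =
        (κ y : ℂ) * (ez (2 * m * y) * e6 i) - (κ (y - x) : ℂ) * (ez (2 * m * (y - x)) * e6 i) := by
      rw [wf]
      ring
    rw [this, Complex.sub_re, Complex.re_ofReal_mul, Complex.re_ofReal_mul]
    ring
  rw [star_mul, hst, h1]
  have h2 : ez (2 * x * y - x ^ 2) = ez (y ^ 2) * star (ez ((y - x) ^ 2)) := by
    rw [← ez_sub]
    congr 1
    ring
  rw [h2, Complex.ofReal_add, mul_add, Complex.exp_add]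
  ring

theorem lin_part {n : ℕ} [NeZero n] (ρ : ZMod n → ℝ) (x : ZMod n) :
    ∑ y, ez (2 * x * y - x ^ 2) * ((ρ y + ρ (y - x) : ℝ) : ℂ) =
      (ez (x ^ 2) + ez (-(x ^ 2))) * ∑ y, (ρ y : ℂ) * ez (2 * x * y) := by
  have h1 : ∑ y, ez (2 * x * y - x ^ 2) * ((ρ y + ρ (y - x) : ℝ) : ℂ) =
      ∑ y, ez (2 * x * y - x ^ 2) * (ρ y : ℂ) +
      ∑ y, ez (2 * x * y - x ^ 2) * (ρ (y - x) : ℂ) := by
    rw [← Finset.sum_add_distrib]
    apply Finset.sum_congr rfl
    intro y _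
    push_cast
    ring
  have h2 : ∑ y, ez (2 * x * y - x ^ 2) * (ρ (y - x) : ℂ) =
      ∑ y, ez (2 * x * (y + x) - x ^ 2) * (ρ y : ℂ) := by
    have := Equiv.sum_comp (Equiv.addRight x)
      (fun y : ZMod n => ez (2 * x * y - x ^ 2) * (ρ (y - x) : ℂ))
    rw [← this]
    apply Finset.sum_congr rfl
    intro y _
    simp
  rw [h1, h2, add_mul, Finset.mul_sum, Finset.mul_sum, add_comm]
  congr 1
  · apply Finset.sum_congr rfl
    intro y _
    have : 2 * x * (y + x) - x ^ 2 = x ^ 2 + 2 * x * y := by ring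
    rw [this, ez_add]
    ring
  · apply Finset.sum_congr rfl
    intro y _
    have : 2 * x * y - x ^ 2 = -(x ^ 2) + 2 * x * y := by ring
    rw [this, ez_add]
    ring

theorem famT_eq {n : ℕ} [NeZero n] (lam : ℝ) (m : ZMod n) (ρ : ZMod n → ℝ) (x : ZMod n) :
    famT lam m ρ x = ∑ y, ez (2 * x * y - x ^ 2) *
      ((c6 (wf (ez (2 * m * y)) (ez (2 * m * (y - x))) (lam + ρ y) (lam + ρ (y - x))) +
        6 * lam * sz (m * x) ^ 2 * (ρ y + ρ (y - x)) : ℝ) : ℂ) := by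
  rw [famT, acf_fam]
  have h := lin_part ρ x
  have h2 : 6 * lam * (sz (m * x) : ℂ) ^ 2 * (ez (x ^ 2) + ez (-(x ^ 2))) *
      ∑ y, (ρ y : ℂ) * ez (2 * x * y) =
      ∑ y, ez (2 * x * y - x ^ 2) * ((6 * lam * sz (m * x) ^ 2 * (ρ y + ρ (y - x)) : ℝ) : ℂ) := by
    rw [mul_assoc _ (ez (x ^ 2) + ez (-(x ^ 2))), ← h, Finset.mul_sum]
    apply Finset.sum_congr rfl
    intro y _
    push_cast
    ring
  rw [h2, ← Finset.sum_add_distrib]
  apply Finset.sum_congr rfl
  intro y _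
  push_cast
  ring

theorem two_ne {n : ℕ} [NeZero n] (hn : Odd n) (x : ZMod n) (hx : x ≠ 0) : 2 * x ≠ 0 := by
  intro h
  have hu : IsUnit (2 : ZMod n) := by
    have : ((2 : ℕ) : ZMod n) = 2 := by norm_num
    rw [← this, ZMod.isUnit_iff_coprime]
    exact (Nat.coprime_two_left).mpr hn
  exact hx ((hu.mul_right_eq_zero).mp h)

theorem sum_chirp {n : ℕ} [NeZero n] (hn : Odd n) (x : ZMod n) (hx : x ≠ 0) :
    ∑ y, ez (2 * x * y - x ^ 2) = 0 := by
  have h1 : ∀ y, ez (2 * x * y - x ^ 2) = ez (-(x ^ 2)) * ez (2 * x * y) := by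
    intro y
    rw [← ez_add]
    congr 1
    ring
  rw [Finset.sum_congr rfl fun y _ => h1 y, ← Finset.mul_sum, sum_ez_mul,
    if_neg (two_ne hn x hx), mul_zero]

theorem re_uu {n : ℕ} [NeZero n] (m x y : ZMod n) :
    (ez (2 * m * y) * star (ez (2 * m * (y - x)))).re = 1 - 2 * sz (m * x) ^ 2 := by
  rw [← ez_sub]
  have : 2 * m * y - 2 * m * (y - x) = m * x + m * x := by ring
  rw [this, ez_add, Complex.mul_re, sz_eq_im]
  have h := norm_ez (m * x)
  have h2 : (ez (m * x)).re * (ez (m * x)).re + (ez (m * x)).im * (ez (m * x)).im = 1 := by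
    rw [← Complex.normSq_apply, Complex.normSq_eq_norm_sq, h]
    norm_num
  linarith [h2, sq (ez (m * x)).im]

theorem cs4 {n : ℕ} [NeZero n] (a b : ZMod n → ℝ) (x : ZMod n) :
    ∑ y, (|a y| + |a (y - x)|) * (|b y| + |b (y - x)|) ≤ 4 * nr a * nr b := by
  have hsh : ∀ f : ZMod n → ℝ, ∑ y, (|f y| + |f (y - x)|) ^ 2 ≤ 4 * ∑ y, f y ^ 2 := by
    intro f
    have h1 : ∑ y, f (y - x) ^ 2 = ∑ y, f y ^ 2 :=
      Equiv.sum_comp (Equiv.subRight x) (fun y => f y ^ 2)
    calc ∑ y, (|f y| + |f (y - x)|) ^ 2 ≤ ∑ y, (2 * f y ^ 2 + 2 * f (y - x) ^ 2) := by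
          apply Finset.sum_le_sum
          intro y _
          have h2 := sq_abs (f y)
          have h3 := sq_abs (f (y - x))
          nlinarith [sq_nonneg (|f y| - |f (y - x)|)]
      _ = 4 * ∑ y, f y ^ 2 := by
          rw [Finset.sum_add_distrib, ← Finset.mul_sum, ← Finset.mul_sum, h1]
          ring
  have h := Finset.sum_mul_sq_le_sq_mul_sq (Finset.univ : Finset (ZMod n))
    (fun y => |a y| + |a (y - x)|) (fun y => |b y| + |b (y - x)|)
  have hA := hsh a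
  have hB := hsh b
  have hA0 : 0 ≤ ∑ y, a y ^ 2 := Finset.sum_nonneg fun y _ => sq_nonneg _
  have hB0 : 0 ≤ ∑ y, b y ^ 2 := Finset.sum_nonneg fun y _ => sq_nonneg _
  have h2 : (∑ y, (|a y| + |a (y - x)|) * (|b y| + |b (y - x)|)) ^ 2 ≤ (4 * nr a * nr b) ^ 2 := by
    refine h.trans ?_
    have : (4 * nr a * nr b) ^ 2 = (4 * ∑ y, a y ^ 2) * (4 * ∑ y, b y ^ 2) := by
      rw [nr, nr]
      have e1 := Real.sq_sqrt hA0
      have e2 := Real.sq_sqrt hB0
      calc (4 * √(∑ y, a y ^ 2) * √(∑ y, b y ^ 2)) ^ 2 =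
          16 * √(∑ y, a y ^ 2) ^ 2 * √(∑ y, b y ^ 2) ^ 2 := by ring
        _ = _ := by rw [e1, e2]; ring
    rw [this]
    exact mul_le_mul hA hB (Finset.sum_nonneg fun y _ => sq_nonneg _) (by positivity)
  have h3 : 0 ≤ 4 * nr a * nr b := by
    rw [nr, nr]
    positivity
  exact le_of_sq_le_sq h2 h3 |>.trans le_rfl

theorem nr_one {n : ℕ} [NeZero n] : nr (fun _ : ZMod n => (1 : ℝ)) = √(n : ℝ) := by
  rw [nr]
  congr 1
  simp [ZMod.card]

theorem nr_nonneg {n : ℕ} [NeZero n] (ρ : ZMod n → ℝ) : 0 ≤ nr ρ := Real.sqrt_nonneg _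

theorem FAM : S_FAM := by
  intro n _ hn m x hx lam hl hl1
  have hn0 : (0 : ℝ) < n := by exact_mod_cast Nat.pos_of_ne_zero (NeZero.ne n)
  constructor
  · rw [famT_eq]
    have h0 := sum_chirp hn x hx
    obtain ⟨K, hK⟩ : ∃ K : ℝ, K = 6 - 6 * lam ^ 2 * sz (m * x) ^ 2 +
      3 / 2 * lam ^ 4 * sz (m * x) ^ 4 := ⟨_, rfl⟩
    have h1 : ∑ y, ez (2 * x * y - x ^ 2) *
        ((c6 (wf (ez (2 * m * y)) (ez (2 * m * (y - x))) (lam + 0) (lam + 0)) +
          6 * lam * sz (m * x) ^ 2 * (0 + 0) : ℝ) : ℂ) =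
        ∑ y, ez (2 * x * y - x ^ 2) *
        ((c6 (wf (ez (2 * m * y)) (ez (2 * m * (y - x))) lam lam) - K : ℝ) : ℂ) := by
      have h2 : ∑ y, ez (2 * x * y - x ^ 2) *
          ((c6 (wf (ez (2 * m * y)) (ez (2 * m * (y - x))) lam lam) - K : ℝ) : ℂ) =
          ∑ y, ez (2 * x * y - x ^ 2) *
          ((c6 (wf (ez (2 * m * y)) (ez (2 * m * (y - x))) lam lam) : ℝ) : ℂ) -
          (∑ y, ez (2 * x * y - x ^ 2)) * (K : ℂ) := by
        rw [Finset.sum_mul, ← Finset.sum_sub_distrib]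
        apply Finset.sum_congr rfl
        intro y _
        push_cast
        ring
      rw [h2, h0, zero_mul, sub_zero]
      apply Finset.sum_congr rfl
      intro y _
      simp only [add_zero, mul_zero]
    rw [h1]
    refine (norm_sum_le _ _).trans ?_
    calc ∑ y, ‖ez (2 * x * y - x ^ 2) *
          ((c6 (wf (ez (2 * m * y)) (ez (2 * m * (y - x))) lam lam) - K : ℝ) : ℂ)‖
        ≤ ∑ _y : ZMod n, lam ^ 6 := by
          apply Finset.sum_le_sum
          intro y _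
          rw [norm_mul, norm_ez, one_mul, Complex.norm_real, Real.norm_eq_abs, hK]
          exact pt_static _ _ (norm_ez _) (norm_ez _) _ (re_uu m x y) lam hl hl1
      _ = n * lam ^ 6 := by
          rw [Finset.sum_const, Finset.card_univ, ZMod.card, nsmul_eq_mul]
  · intro ρ ρ' hρ hρ'
    rw [famT_eq, famT_eq, ← Finset.sum_sub_distrib]
    refine (norm_sum_le _ _).trans ?_
    obtain ⟨δ, hδ⟩ : ∃ δ : ZMod n → ℝ, δ = fun y => ρ y - ρ' y := ⟨_, rfl⟩
    have hpt : ∀ y, ‖ez (2 * x * y - x ^ 2) *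
        ((c6 (wf (ez (2 * m * y)) (ez (2 * m * (y - x))) (lam + ρ y) (lam + ρ (y - x))) +
          6 * lam * sz (m * x) ^ 2 * (ρ y + ρ (y - x)) : ℝ) : ℂ) -
        ez (2 * x * y - x ^ 2) *
        ((c6 (wf (ez (2 * m * y)) (ez (2 * m * (y - x))) (lam + ρ' y) (lam + ρ' (y - x))) +
          6 * lam * sz (m * x) ^ 2 * (ρ' y + ρ' (y - x)) : ℝ) : ℂ)‖ ≤
        16 * lam ^ 3 * ((|δ y| + |δ (y - x)|) * (|(1 : ℝ)| + |(1 : ℝ)|)) +
        18 * ((|δ y| + |δ (y - x)|) * (|ρ y| + |ρ (y - x)|)) +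
        18 * ((|δ y| + |δ (y - x)|) * (|ρ' y| + |ρ' (y - x)|)) := by
      intro y
      rw [← mul_sub, norm_mul, norm_ez, one_mul, ← Complex.ofReal_sub, Complex.norm_real,
        Real.norm_eq_abs]
      have h := pt_lip (ez (2 * m * y)) (ez (2 * m * (y - x))) (norm_ez _) (norm_ez _)
        (sz (m * x)) (re_uu m x y) lam (ρ y) (ρ (y - x)) (ρ' y) (ρ' (y - x)) hl
        (hρ y) (hρ (y - x)) (hρ' y) (hρ' (y - x))
      have e1 : c6 (wf (ez (2 * m * y)) (ez (2 * m * (y - x))) (lam + ρ y) (lam + ρ (y - x))) +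
          6 * lam * sz (m * x) ^ 2 * (ρ y + ρ (y - x)) -
          (c6 (wf (ez (2 * m * y)) (ez (2 * m * (y - x))) (lam + ρ' y) (lam + ρ' (y - x))) +
          6 * lam * sz (m * x) ^ 2 * (ρ' y + ρ' (y - x))) =
          c6 (wf (ez (2 * m * y)) (ez (2 * m * (y - x))) (lam + ρ y) (lam + ρ (y - x))) -
          c6 (wf (ez (2 * m * y)) (ez (2 * m * (y - x))) (lam + ρ' y) (lam + ρ' (y - x))) +
          6 * lam * sz (m * x) ^ 2 * ((ρ y - ρ' y) + (ρ (y - x) - ρ' (y - x))) := by ring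
      rw [e1]
      refine h.trans (le_of_eq ?_)
      rw [hδ, abs_one]
      ring
    refine (Finset.sum_le_sum fun y _ => hpt y).trans ?_
    rw [Finset.sum_add_distrib, Finset.sum_add_distrib, ← Finset.mul_sum, ← Finset.mul_sum,
      ← Finset.mul_sum]
    have c1 := cs4 δ (fun _ => (1 : ℝ)) x
    have c2 := cs4 δ ρ x
    have c3 := cs4 δ ρ' x
    rw [nr_one] at c1
    have hδ' : nr (fun y => ρ y - ρ' y) = nr δ := by rw [hδ]
    rw [hδ']
    have d0 := nr_nonneg δ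
    have d1 := nr_nonneg ρ
    have d2 := nr_nonneg ρ'
    have d3 : 0 ≤ √(n : ℝ) := Real.sqrt_nonneg _
    have l3 : 0 ≤ lam ^ 3 := by positivity
    have m1 := mul_le_mul_of_nonneg_left c1 (by positivity : 0 ≤ 16 * lam ^ 3)
    have p1 := mul_nonneg d0 d1
    have p2 := mul_nonneg d0 d2
    have p3 := mul_nonneg (mul_nonneg l3 d3) d0
    nlinarith

end Pool.Agent.H20.U
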