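import Pool.Agent.H26.U.Stmts

/-!
# Project U (MP_0c7934_co), module SEC: the second difference in `ρ`
-/

namespace Pool.Agent.H20.U

open Pool.Agent.H26.U

/-- second difference bound from a bound of the second derivative -/
theorem second_diff (g g1 g2 : ℝ → ℂ) (a h M : ℝ) (hh : 0 < h)
    (h1 : ∀ t ∈ Set.Icc a (a + 2 * h), HasDerivAt g (g1 t) t)
    (h2 : ∀ t ∈ Set.Icc a (a + 2 * h), HasDerivAt g1 (g2 t) t)
    (hM : ∀ t ∈ Set.Icc a (a + 2 * h), ‖g2 t‖ ≤ M) :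
    ‖g (a + 2 * h) - 2 * g (a + h) + g a‖ ≤ h ^ 2 * M := by
  have hlip : ∀ s ∈ Set.Icc a (a + 2 * h), ∀ t ∈ Set.Icc a (a + 2 * h),
      ‖g1 t - g1 s‖ ≤ M * ‖t - s‖ := by
    intro s hs t ht
    exact (convex_Icc a (a + 2 * h)).norm_image_sub_le_of_norm_hasDerivWithin_le
      (fun x hx => (h2 x hx).hasDerivWithinAt) hM hs ht
  have hφ : ∀ t ∈ Set.Icc a (a + h), HasDerivWithinAt (fun s => g (s + h) - g s)
      (g1 (t + h) - g1 t) (Set.Icc a (a + h)) t := by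
    intro t ht
    have e1 : HasDerivAt (fun s => g (s + h)) (g1 (t + h)) t :=
      (h1 (t + h) ⟨by linarith [ht.1], by linarith [ht.2]⟩).comp_add_const t h
    have e2 : HasDerivAt g (g1 t) t := h1 t ⟨ht.1, by linarith [ht.2]⟩
    exact (e1.sub e2).hasDerivWithinAt
  have hb : ∀ t ∈ Set.Icc a (a + h), ‖g1 (t + h) - g1 t‖ ≤ M * h := by
    intro t ht
    have := hlip t ⟨ht.1, by linarith [ht.2]⟩ (t + h) ⟨by linarith [ht.1], by linarith [ht.2]⟩
    rw [add_sub_cancel_left, Real.norm_eq_abs, abs_of_pos hh] at this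
    exact this
  have := (convex_Icc a (a + h)).norm_image_sub_le_of_norm_hasDerivWithin_le hφ hb
    (x := a) (y := a + h) ⟨le_rfl, by linarith⟩ ⟨by linarith, le_rfl⟩
  rw [add_sub_cancel_left, Real.norm_eq_abs, abs_of_pos hh] at this
  have e : g (a + h + h) - g (a + h) - (g (a + h) - g a) =
      g (a + 2 * h) - 2 * g (a + h) + g a := by
    rw [show a + h + h = a + 2 * h by ring]
    ring
  rw [e] at this
  calc _ ≤ M * h * h := this
    _ = h ^ 2 * M := by ring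

theorem re_lt (z : ℂ) (hz : ‖z‖ = 1) (h1 : z ≠ 1) : z.re < 1 := by
  have h2 : z.re ≤ 1 := by
    have := Complex.re_le_norm z
    rw [hz] at this
    exact this
  rcases h2.lt_or_eq with h | h
  · exact h
  · exfalso
    apply h1
    have h3 : z.re ^ 2 + z.im ^ 2 = 1 := by
      have := Complex.sq_norm z
      rw [hz, Complex.normSq_apply] at this
      nlinarith
    rw [h] at h3
    have h4 : z.im = 0 := by
      have : z.im ^ 2 = 0 := by linarith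
      exact pow_eq_zero_iff (two_ne_zero) |>.mp this
    apply Complex.ext
    · simpa using h
    · simpa using h4

theorem re_pos (z : ℂ) (hz : ‖z‖ = 1) (h1 : z ≠ 1) (ρ : ℝ) (h0 : 0 ≤ ρ) (hρ : ρ ≤ 1) :
    0 < (1 - (ρ : ℂ) * z).re := by
  have := re_lt z hz h1
  rw [Complex.sub_re, Complex.one_re, Complex.re_ofReal_mul]
  rcases h0.eq_or_lt with h | h
  · rw [← h]
    norm_num
  · nlinarith

theorem low (z : ℂ) (hz : ‖z‖ = 1) (ρ : ℝ) (h0 : 0 ≤ ρ) (hρ : ρ ≤ 1) :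
    ‖1 - z‖ ≤ 2 * ‖1 - (ρ : ℂ) * z‖ := by
  have e1 : 1 - z = (1 - (ρ : ℂ) * z) + (((ρ - 1 : ℝ) : ℂ) * z) := by
    push_cast
    ring
  have e2 : ‖((ρ - 1 : ℝ) : ℂ) * z‖ = 1 - ρ := by
    rw [norm_mul, hz, mul_one, Complex.norm_real, Real.norm_eq_abs, abs_of_nonpos (by linarith)]
    ring
  have e3 : 1 - ρ ≤ ‖1 - (ρ : ℂ) * z‖ := by
    have := norm_sub_norm_le (1 : ℂ) ((ρ : ℂ) * z)
    rw [norm_one, norm_mul, hz, mul_one, Complex.norm_real, Real.norm_eq_abs,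
      abs_of_nonneg h0] at this
    exact this
  rw [e1]
  refine (norm_add_le _ _).trans ?_
  rw [e2]
  linarith

/-- `a = z / (1 - ρ z)` -/
noncomputable def aa (z : ℂ) (ρ : ℝ) : ℂ := z / (1 - (ρ : ℂ) * z)

theorem aa_norm (z : ℂ) (hz : ‖z‖ = 1) (h1 : z ≠ 1) (ρ : ℝ) (h0 : 0 ≤ ρ) (hρ : ρ ≤ 1) :
    ‖aa z ρ‖ ^ 2 ≤ 4 * (1 / ‖1 - z‖ ^ 2) := by
  have h2 := low z hz ρ h0 hρ
  have h3 : 0 < ‖1 - z‖ := by
    rw [norm_pos_iff]
    intro h
    exact h1 (sub_eq_zero.mp h).symm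
  have h4 : 0 < ‖1 - (ρ : ℂ) * z‖ := by linarith
  rw [aa, norm_div, hz, div_pow, one_pow]
  have h5 : ‖1 - z‖ ^ 2 ≤ 4 * ‖1 - (ρ : ℂ) * z‖ ^ 2 := by nlinarith
  rw [mul_one_div, div_le_div_iff₀ (by positivity) (by positivity)]
  linarith

theorem hd_lin (z : ℂ) (t : ℝ) : HasDerivAt (fun s : ℝ => 1 - (s : ℂ) * z) (-z) t := by
  have h1 : HasDerivAt (fun s : ℝ => (s : ℂ)) 1 t := Complex.ofRealCLM.hasDerivAt
  have h2 := (h1.mul_const z).const_sub 1
  simpa using h2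

theorem hd_log (z : ℂ) (hz : ‖z‖ = 1) (h1 : z ≠ 1) (t : ℝ) (h0 : 0 ≤ t) (ht : t ≤ 1) :
    HasDerivAt (fun s : ℝ => Complex.log (1 - (s : ℂ) * z)) (-aa z t) t := by
  have h2 : (1 - (t : ℂ) * z) ∈ Complex.slitPlane := by
    left
    exact re_pos z hz h1 t h0 ht
  have h3 := (hd_lin z t).clog_real h2
  rw [aa]
  convert h3 using 1
  ring

theorem hd_aa (z : ℂ) (hz : ‖z‖ = 1) (h1 : z ≠ 1) (t : ℝ) (h0 : 0 ≤ t) (ht : t ≤ 1) :
    HasDerivAt (fun s : ℝ => aa z s) (aa z t ^ 2) t := by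
  have h2 : (1 - (t : ℂ) * z) ≠ 0 := by
    intro h
    have := re_pos z hz h1 t h0 ht
    rw [h] at this
    simp at this
  have h3 := (hasDerivAt_const t z).div (hd_lin z t) h2
  unfold aa
  refine HasDerivAt.congr_deriv h3 ?_
  rw [div_pow]
  congr 1
  ring

theorem SEC : S_SEC := by
  refine ⟨Real.exp (Real.pi / 2) * 2, ?_⟩
  intro κ hκ z z' hz hz' hz1 hz1' h hh0 hh
  -- the function and its derivatives
  set ff : ℝ → ℂ := fun ρ => Complex.exp (Complex.I * (κ : ℂ) *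
    (Complex.log (1 - (ρ : ℂ) * z) - Complex.log (1 - (ρ : ℂ) * z'))) with hff
  set q : ℝ → ℂ := fun ρ => Complex.I * (κ : ℂ) * (aa z' ρ - aa z ρ) with hq
  set q1 : ℝ → ℂ := fun ρ => Complex.I * (κ : ℂ) * (aa z' ρ ^ 2 - aa z ρ ^ 2) with hq1
  have hval : ∀ ρ : ℝ, 0 ≤ ρ → ρ ≤ 1 → (1 - (ρ : ℂ) * z) ^ (Complex.I * (κ : ℂ)) *
      (1 - (ρ : ℂ) * z') ^ (-(Complex.I * (κ : ℂ))) = ff ρ := by
    intro ρ h0 h1
    have e1 : (1 - (ρ : ℂ) * z) ≠ 0 := by
      intro h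
      have := re_pos z hz hz1 ρ h0 h1
      rw [h] at this
      simp at this
    have e2 : (1 - (ρ : ℂ) * z') ≠ 0 := by
      intro h
      have := re_pos z' hz' hz1' ρ h0 h1
      rw [h] at this
      simp at this
    rw [Complex.cpow_def_of_ne_zero e1, Complex.cpow_def_of_ne_zero e2, ← Complex.exp_add, hff]
    congr 1
    ring
  have hd1 : ∀ t : ℝ, 0 ≤ t → t ≤ 1 → HasDerivAt ff (ff t * q t) t := by
    intro t h0 h1
    have e := (((hd_log z hz hz1 t h0 h1).sub (hd_log z' hz' hz1' t h0 h1)).const_mul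
      (Complex.I * (κ : ℂ))).cexp
    refine HasDerivAt.congr_deriv e ?_
    simp only [hff, hq, Pi.sub_apply]
    ring
  have hdq : ∀ t : ℝ, 0 ≤ t → t ≤ 1 → HasDerivAt q (q1 t) t := by
    intro t h0 h1
    exact ((hd_aa z' hz' hz1' t h0 h1).sub (hd_aa z hz hz1 t h0 h1)).const_mul
      (Complex.I * (κ : ℂ))
  have hd2 : ∀ t : ℝ, 0 ≤ t → t ≤ 1 →
      HasDerivAt (fun s => ff s * q s) (ff t * (q t ^ 2 + q1 t)) t := by
    intro t h0 h1
    have e := (hd1 t h0 h1).mul (hdq t h0 h1)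
    refine HasDerivAt.congr_deriv e ?_
    ring
  have hfb : ∀ t : ℝ, ‖ff t‖ ≤ Real.exp (Real.pi / 2) := by
    intro t
    rw [hff]
    simp only []
    rw [Complex.norm_exp, Real.exp_le_exp]
    obtain ⟨L, hL⟩ : ∃ L, L = Complex.log (1 - (t : ℂ) * z) := ⟨_, rfl⟩
    obtain ⟨L', hL'⟩ : ∃ L, L = Complex.log (1 - (t : ℂ) * z') := ⟨_, rfl⟩
    rw [← hL, ← hL']
    have e1 : (Complex.I * (κ : ℂ) * (L - L')).re = -(κ * (L.im - L'.im)) := by
      simp [Complex.mul_re, Complex.mul_im]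
    rw [e1]
    have b1 : |L.im| ≤ Real.pi := by rw [hL]; rw [Complex.log_im]; exact Complex.abs_arg_le_pi _
    have b2 : |L'.im| ≤ Real.pi := by rw [hL']; rw [Complex.log_im]; exact Complex.abs_arg_le_pi _
    have b3 : |L.im - L'.im| ≤ 2 * Real.pi := by
      have := abs_sub L.im L'.im
      linarith
    have b4 : |κ * (L.im - L'.im)| ≤ 1 / 4 * (2 * Real.pi) := by
      rw [abs_mul]
      exact mul_le_mul hκ b3 (abs_nonneg _) (by norm_num)
    have b5 := neg_abs_le (κ * (L.im - L'.im))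
    linarith
  obtain ⟨W, hW⟩ : ∃ W, W = 1 / ‖1 - z‖ ^ 2 + 1 / ‖1 - z'‖ ^ 2 := ⟨_, rfl⟩
  have hW0 : 0 ≤ W := by rw [hW]; positivity
  have hbd : ∀ t : ℝ, 0 ≤ t → t ≤ 1 → ‖ff t * (q t ^ 2 + q1 t)‖ ≤
      Real.exp (Real.pi / 2) * (2 * W) := by
    intro t h0 h1
    rw [norm_mul]
    apply mul_le_mul (hfb t) _ (norm_nonneg _) (by positivity)
    have a1 := aa_norm z hz hz1 t h0 h1
    have a2 := aa_norm z' hz' hz1' t h0 h1
    obtain ⟨x, hx⟩ : ∃ x, x = ‖aa z t‖ := ⟨_, rfl⟩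
    obtain ⟨y, hy⟩ : ∃ y, y = ‖aa z' t‖ := ⟨_, rfl⟩
    have hx0 : 0 ≤ x := by rw [hx]; positivity
    have hy0 : 0 ≤ y := by rw [hy]; positivity
    rw [← hx] at a1
    rw [← hy] at a2
    have hxy : x ^ 2 + y ^ 2 ≤ 4 * W := by rw [hW]; linarith
    have c0 : ‖Complex.I * (κ : ℂ)‖ ≤ 1 / 4 := by
      rw [norm_mul, Complex.norm_I, one_mul, Complex.norm_real, Real.norm_eq_abs]
      exact hκ
    have c1 : ‖q t‖ ≤ 1 / 4 * (x + y) := by
      rw [hq]
      simp only []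
      rw [norm_mul]
      apply mul_le_mul c0 _ (norm_nonneg _) (by norm_num)
      have := norm_sub_le (aa z' t) (aa z t)
      rw [← hx, ← hy] at this
      linarith
    have c2 : ‖q1 t‖ ≤ 1 / 4 * (x ^ 2 + y ^ 2) := by
      rw [hq1]
      simp only []
      rw [norm_mul]
      apply mul_le_mul c0 _ (norm_nonneg _) (by norm_num)
      have := norm_sub_le (aa z' t ^ 2) (aa z t ^ 2)
      rw [norm_pow, norm_pow, ← hx, ← hy] at this
      linarith
    have c3 : ‖q t ^ 2‖ ≤ 1 / 8 * (x ^ 2 + y ^ 2) := by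
      rw [norm_pow]
      have : ‖q t‖ ^ 2 ≤ (1 / 4 * (x + y)) ^ 2 := pow_le_pow_left₀ (norm_nonneg _) c1 2
      nlinarith [sq_nonneg (x - y)]
    have := norm_add_le (q t ^ 2) (q1 t)
    linarith
  have key := second_diff ff (fun s => ff s * q s) (fun t => ff t * (q t ^ 2 + q1 t))
    (1 - 2 * h) h (Real.exp (Real.pi / 2) * (2 * W)) hh0
    (fun t ht => hd1 t (by linarith [ht.1]) (by linarith [ht.2]))
    (fun t ht => hd2 t (by linarith [ht.1]) (by linarith [ht.2]))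
    (fun t ht => hbd t (by linarith [ht.1]) (by linarith [ht.2]))
  rw [show 1 - 2 * h + 2 * h = 1 by ring, show 1 - 2 * h + h = 1 - h by ring] at key
  have v1 := hval 1 (by norm_num) le_rfl
  rw [Complex.ofReal_one, one_mul, one_mul] at v1
  rw [v1, hval (1 - h) (by linarith) (by linarith), hval (1 - 2 * h) (by linarith) (by linarith),
    ← hW]
  calc _ ≤ h ^ 2 * (Real.exp (Real.pi / 2) * (2 * W)) := key
    _ = _ := by ring

end Pool.Agent.H20.U
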