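import Pool.Agent.H26.U.Ez

/-!
# Project U (MP_0c7934_co), module UB: `∑ 1 / √|sin (2 π u / m)|` over the units is `O (φ (m))`
-/

namespace Pool.Agent.H20.U

open Pool.Agent.H26.U Finset

/-- numbers `≤ V` free of the primes of `P` -/
def fr (P : Finset ℕ) (V : ℕ) : Finset ℕ :=
  (range (V + 1)).filter (fun v => 0 < v ∧ ∀ p ∈ P, ¬ p ∣ v)

theorem base_up (N : ℕ) : ∑ v ∈ fr ∅ N, 1 / √(v : ℝ) ≤ 2 * √(N : ℝ) := by
  have e : fr ∅ N = Ioc 0 N := by
    ext v
    simp [fr]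
    omega
  rw [e]
  induction N with
  | zero => simp
  | succ k ih =>
    rw [Finset.sum_Ioc_succ_top (by omega)]
    have ih' := ih (by
      ext v
      simp [fr]
      omega)
    have hk : (0 : ℝ) ≤ k := by positivity
    have h1 : √((k + 1 : ℕ) : ℝ) = √((k : ℝ) + 1) := by push_cast; rfl
    rw [h1]
    obtain ⟨a, ha⟩ : ∃ a, a = √(k : ℝ) := ⟨_, rfl⟩
    obtain ⟨b, hb⟩ : ∃ b, b = √((k : ℝ) + 1) := ⟨_, rfl⟩
    have ha0 : 0 ≤ a := by rw [ha]; positivity
    have hb0 : 0 < b := by rw [hb]; positivity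
    have ha2 : a ^ 2 = k := by rw [ha]; exact Real.sq_sqrt hk
    have hb2 : b ^ 2 = k + 1 := by rw [hb]; exact Real.sq_sqrt (by positivity)
    rw [← ha] at ih'
    rw [← hb]
    have : 1 / b ≤ 2 * b - 2 * a := by
      rw [div_le_iff₀ hb0]
      nlinarith [sq_nonneg (a - b)]
    linarith

theorem base_lo (N : ℕ) : 2 * √((N : ℝ) + 1) - 2 ≤ ∑ v ∈ fr ∅ N, 1 / √(v : ℝ) := by
  have e : fr ∅ N = Ioc 0 N := by
    ext v
    simp [fr]
    omega
  rw [e]
  induction N with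
  | zero => simp
  | succ k ih =>
    rw [Finset.sum_Ioc_succ_top (by omega)]
    have ih' := ih (by
      ext v
      simp [fr]
      omega)
    have hk : (0 : ℝ) ≤ k := by positivity
    have h1 : √((k + 1 : ℕ) : ℝ) = √((k : ℝ) + 1) := by push_cast; rfl
    have h2 : √(((k + 1 : ℕ) : ℝ) + 1) = √((k : ℝ) + 2) := by
      push_cast
      congr 1
      ring
    rw [h1, h2]
    obtain ⟨a, ha⟩ : ∃ a, a = √((k : ℝ) + 1) := ⟨_, rfl⟩
    obtain ⟨b, hb⟩ : ∃ b, b = √((k : ℝ) + 2) := ⟨_, rfl⟩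
    have ha0 : 0 < a := by rw [ha]; positivity
    have hb0 : 0 < b := by rw [hb]; positivity
    have ha2 : a ^ 2 = k + 1 := by rw [ha]; exact Real.sq_sqrt (by positivity)
    have hb2 : b ^ 2 = k + 2 := by rw [hb]; exact Real.sq_sqrt (by positivity)
    rw [← ha] at ih' ⊢
    rw [← hb]
    have : 2 * b - 2 * a ≤ 1 / a := by
      rw [le_div_iff₀ ha0]
      nlinarith [sq_nonneg (a - b)]
    linarith

theorem main_est (P : Finset ℕ) (hP : ∀ p ∈ P, p.Prime) : ∀ x : ℝ, 0 ≤ x →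
    |∑ v ∈ fr P ⌊x⌋₊, 1 / √(v : ℝ) - 2 * √x * ∏ p ∈ P, (1 - 1 / (p : ℝ))| ≤
      2 * ∏ p ∈ P, (1 + 1 / √(p : ℝ)) := by
  induction P using Finset.induction_on with
  | empty =>
    intro x hx
    have h1 := base_up ⌊x⌋₊
    have h2 := base_lo ⌊x⌋₊
    have h3 : √((⌊x⌋₊ : ℕ) : ℝ) ≤ √x := Real.sqrt_le_sqrt (Nat.floor_le hx)
    have h4 : √x ≤ √((⌊x⌋₊ : ℝ) + 1) := Real.sqrt_le_sqrt (Nat.lt_floor_add_one x).le
    simp only [prod_empty, mul_one]
    rw [abs_le]
    constructor <;> linarith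
  | insert p P hp ih =>
    intro x hx
    have hpp : p.Prime := hP p (mem_insert_self _ _)
    have hP' : ∀ q ∈ P, q.Prime := fun q hq => hP q (mem_insert_of_mem hq)
    have i1 := ih hP' x hx
    have i2 := ih hP' (x / p) (by positivity)
    have hp0 : (0 : ℝ) < p := by exact_mod_cast hpp.pos
    have hsp : 0 < √(p : ℝ) := Real.sqrt_pos.mpr hp0
    have hsp2 : √(p : ℝ) * √(p : ℝ) = p := Real.mul_self_sqrt hp0.le
    rw [prod_insert hp, prod_insert hp]
    -- splitting of the sum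
    have hsplit : ∑ v ∈ fr P ⌊x⌋₊, 1 / √(v : ℝ) =
        ∑ v ∈ fr (insert p P) ⌊x⌋₊, 1 / √(v : ℝ) +
        1 / √(p : ℝ) * ∑ v ∈ fr P ⌊x / p⌋₊, 1 / √(v : ℝ) := by
      have hf : fr P ⌊x⌋₊ = fr (insert p P) ⌊x⌋₊ ∪ (fr P ⌊x / p⌋₊).image (fun v => p * v) := by
        ext v
        rw [Nat.floor_div_natCast]
        simp only [fr, mem_filter, mem_union, mem_image, mem_range, mem_insert,
          forall_eq_or_imp]
        constructor
        · rintro ⟨h1, h2, h3⟩
          by_cases hpv : p ∣ v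
          · right
            obtain ⟨w, rfl⟩ := hpv
            refine ⟨w, ⟨?_, ?_, ?_⟩, rfl⟩
            · have : w ≤ ⌊x⌋₊ / p := by
                rw [Nat.le_div_iff_mul_le hpp.pos]
                nlinarith
              omega
            · exact Nat.pos_of_mul_pos_left h2
            · intro q hq hqw
              exact h3 q hq (Dvd.dvd.mul_left hqw p)
          · left
            exact ⟨h1, h2, hpv, h3⟩
        · rintro (⟨h1, h2, _, h3⟩ | ⟨w, ⟨h1, h2, h3⟩, rfl⟩)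
          · exact ⟨h1, h2, h3⟩
          · refine ⟨?_, Nat.mul_pos hpp.pos h2, ?_⟩
            · have h4 : w ≤ ⌊x⌋₊ / p := by omega
              rw [Nat.le_div_iff_mul_le hpp.pos] at h4
              have : p * w = w * p := mul_comm _ _
              omega
            · intro q hq hqw
              rcases (hP' q hq).dvd_mul.mp hqw with h | h
              · have := (Nat.prime_dvd_prime_iff_eq (hP' q hq) hpp).mp h
                rw [this] at hq
                exact hp hq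
              · exact h3 q hq h
      have hd : Disjoint (fr (insert p P) ⌊x⌋₊) ((fr P ⌊x / p⌋₊).image (fun v => p * v)) := by
        rw [Finset.disjoint_left]
        intro v hv hv'
        simp only [fr, mem_filter, mem_insert, forall_eq_or_imp] at hv
        rw [mem_image] at hv'
        obtain ⟨w, _, rfl⟩ := hv'
        exact hv.2.2.1 (dvd_mul_right _ _)
      rw [hf, sum_union hd, sum_image]
      · congr 1
        rw [mul_sum]
        apply sum_congr rfl
        intro v _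
        rw [Nat.cast_mul, Real.sqrt_mul hp0.le]
        rw [one_div_mul_one_div]
      · intro a _ b _ hab
        exact Nat.eq_of_mul_eq_mul_left hpp.pos hab
    have hs : √(x / p) = √x / √(p : ℝ) := Real.sqrt_div hx _
    rw [hs] at i2
    obtain ⟨S1, hS1⟩ : ∃ s, s = ∑ v ∈ fr P ⌊x⌋₊, 1 / √(v : ℝ) := ⟨_, rfl⟩
    obtain ⟨S2, hS2⟩ : ∃ s, s = ∑ v ∈ fr P ⌊x / p⌋₊, 1 / √(v : ℝ) := ⟨_, rfl⟩
    obtain ⟨S3, hS3⟩ : ∃ s, s = ∑ v ∈ fr (insert p P) ⌊x⌋₊, 1 / √(v : ℝ) := ⟨_, rfl⟩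
    obtain ⟨Q, hQ⟩ : ∃ s, s = ∏ p ∈ P, (1 - 1 / (p : ℝ)) := ⟨_, rfl⟩
    obtain ⟨E, hE⟩ : ∃ s, s = ∏ p ∈ P, (1 + 1 / √(p : ℝ)) := ⟨_, rfl⟩
    rw [← hS1, ← hS2, ← hS3] at hsplit
    rw [← hS1, ← hQ, ← hE] at i1
    rw [← hS2, ← hQ, ← hE] at i2
    rw [← hS3, ← hQ, ← hE]
    have key : S3 - 2 * √x * ((1 - 1 / (p : ℝ)) * Q) =
        (S1 - 2 * √x * Q) - 1 / √(p : ℝ) * (S2 - 2 * (√x / √(p : ℝ)) * Q) := by
      have h1 : 1 / (p : ℝ) = 1 / √(p : ℝ) * (1 / √(p : ℝ)) := by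
        rw [one_div_mul_one_div, hsp2]
      rw [h1]
      have h2 : √x / √(p : ℝ) = √x * (1 / √(p : ℝ)) := by ring
      rw [h2, hsplit]
      ring
    rw [key]
    have h5 : |1 / √(p : ℝ) * (S2 - 2 * (√x / √(p : ℝ)) * Q)| ≤ 1 / √(p : ℝ) * (2 * E) := by
      rw [abs_mul, abs_of_pos (by positivity : (0 : ℝ) < 1 / √(p : ℝ))]
      exact mul_le_mul_of_nonneg_left i2 (by positivity)
    calc |(S1 - 2 * √x * Q) - 1 / √(p : ℝ) * (S2 - 2 * (√x / √(p : ℝ)) * Q)|
        ≤ |S1 - 2 * √x * Q| + |1 / √(p : ℝ) * (S2 - 2 * (√x / √(p : ℝ)) * Q)| := abs_sub _ _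
      _ ≤ 2 * E + 1 / √(p : ℝ) * (2 * E) := add_le_add i1 h5
      _ = 2 * ((1 + 1 / √(p : ℝ)) * E) := by ring

theorem prod_bd (P : Finset ℕ) (hP : ∀ p ∈ P, p.Prime ∧ p ≠ 2) :
    ∏ p ∈ P, (√(p : ℝ) + 1) ≤ 2 * ∏ p ∈ P, ((p : ℝ) - 1) := by
  have h1 : ∏ p ∈ P, (√(p : ℝ) + 1) ≤ ∏ p ∈ P, ((if p = 3 then 2 else 1) * ((p : ℝ) - 1)) := by
    apply prod_le_prod
    · intro p _
      positivity
    · intro p hp
      obtain ⟨h1, h2⟩ := hP p hp
      have h3 : 3 ≤ p := by
        have := h1.two_le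
        omega
      split_ifs with h
      · subst h
        have : √((3 : ℕ) : ℝ) ≤ 2 := by
          rw [Real.sqrt_le_left (by norm_num)]
          norm_num
        push_cast at this ⊢
        linarith
      · have h5 : 4 ≤ p := by omega
        have h5' : (4 : ℝ) ≤ p := by exact_mod_cast h5
        rw [one_mul]
        have hs : √(p : ℝ) ^ 2 = p := Real.sq_sqrt (by positivity)
        have h2' : 2 ≤ √(p : ℝ) := by
          apply Real.le_sqrt_of_sq_le
          linarith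
        nlinarith
  refine h1.trans ?_
  rw [prod_mul_distrib]
  apply mul_le_mul_of_nonneg_right
  · rw [prod_ite_eq' P 3 (fun _ => (2 : ℝ))]
    split_ifs <;> norm_num
  · apply prod_nonneg
    intro p hp
    have := (hP p hp).1.one_lt
    have : (1 : ℝ) < p := by exact_mod_cast this
    linarith

theorem abs_sz_two (m : ℕ) [NeZero m] (u : ZMod m) : |sz u| = ‖1 - ez (2 * u)‖ / 2 := by
  have h := two_I_sz u
  have h2 : ‖2 * Complex.I * (sz u : ℂ)‖ = 2 * |sz u| := by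
    simp
  have h3 : ez u - ez (-u) = - ez (-u) * (1 - ez (2 * u)) := by
    have : ez (2 * u) = ez u * ez u := by rw [two_mul, ez_add]
    rw [this]
    have h4 : ez (-u) * ez u = 1 := by rw [← ez_add, neg_add_cancel, ez_zero]
    linear_combination (-ez u) * h4
  rw [h, h3, norm_mul, norm_neg, norm_ez, one_mul] at h2
  linarith

theorem UB : S_UB := by
  refine ⟨9, by norm_num, ?_⟩
  intro m _ hodd hsq hm
  have hm0 : (0 : ℝ) < m := by exact_mod_cast (by omega : 0 < m)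
  have hfact : Fact (1 < m) := ⟨by omega⟩
  -- the unit 2
  have h2c : Nat.Coprime 2 m := (Nat.coprime_two_left).mpr hodd
  obtain ⟨w, hw⟩ : ∃ w : (ZMod m)ˣ, (w : ZMod m) = 2 := by
    refine ⟨ZMod.unitOfCoprime 2 h2c, ?_⟩
    simp
  -- the comparison function
  set F : ℕ → ℝ := fun v => √(m / 2) * (1 / √(v : ℝ)) with hF
  have hF0 : ∀ v, 0 ≤ F v := fun v => by positivity
  have hpt : ∀ u : (ZMod m)ˣ, 1 / √|sz (u : ZMod m)| ≤
      F ((w * u : (ZMod m)ˣ) : ZMod m).val + F ((-(w * u) : (ZMod m)ˣ) : ZMod m).val := by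
    intro u
    have hv : ((w * u : (ZMod m)ˣ) : ZMod m) = 2 * u := by
      rw [Units.val_mul, hw]
    have hv0 : ((w * u : (ZMod m)ˣ) : ZMod m) ≠ 0 := (w * u).ne_zero
    rw [Units.val_neg, hv, abs_sz_two]
    rw [hv] at hv0
    obtain ⟨v, hvv⟩ : ∃ v : ZMod m, v = 2 * u := ⟨_, rfl⟩
    rw [← hvv] at hv0 ⊢
    have h1 := norm_one_sub_ez_ge v
    have hval : v.val < m := ZMod.val_lt v
    have hval0 : 0 < v.val := by
      rw [Nat.pos_iff_ne_zero]
      intro h
      exact hv0 ((ZMod.val_eq_zero v).mp h)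
    have hneg : (-v).val = m - v.val := by
      rw [ZMod.neg_val, if_neg hv0]
    rw [hneg]
    have hcast : ((m - v.val : ℕ) : ℝ) = (m : ℝ) - v.val := by
      rw [Nat.cast_sub hval.le]
    have ha : (0 : ℝ) < v.val := by exact_mod_cast hval0
    have hb : (0 : ℝ) < (m : ℝ) - v.val := by
      have : (v.val : ℝ) < m := by exact_mod_cast hval
      linarith
    have gen : ∀ t : ℝ, 0 < t → 4 * t / m ≤ ‖1 - ez v‖ →
        1 / √(‖1 - ez v‖ / 2) ≤ √(m / 2) * (1 / √t) := by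
      intro t ht h
      have h2 : 2 * t / m ≤ ‖1 - ez v‖ / 2 := by
        have : 4 * t / m = 2 * (2 * t / m) := by ring
        rw [this] at h
        linarith
      have h3 : 0 < 2 * t / m := by positivity
      have h4 : √(2 * t / m) ≤ √(‖1 - ez v‖ / 2) := Real.sqrt_le_sqrt h2
      have h5 : 0 < √(2 * t / m) := Real.sqrt_pos.mpr h3
      have h6 : 1 / √(‖1 - ez v‖ / 2) ≤ 1 / √(2 * t / m) := one_div_le_one_div_of_le h5 h4
      refine h6.trans (le_of_eq ?_)
      rw [← Real.sqrt_one, ← Real.sqrt_div (by norm_num), ← Real.sqrt_div (by norm_num),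
        ← Real.sqrt_mul (by positivity)]
      congr 1
      field_simp
    rcases le_total (v.val : ℝ) ((m : ℝ) - v.val) with h | h
    · rw [min_eq_left h] at h1
      have := gen _ ha h1
      have h0 := hF0 (m - v.val)
      calc _ ≤ F v.val := this
        _ ≤ _ := by linarith
    · rw [min_eq_right h] at h1
      have := gen _ hb h1
      have h0 := hF0 v.val
      rw [← hcast] at this
      calc _ ≤ F (m - v.val) := this
        _ ≤ _ := by linarith
  have hsum1 : ∑ u : (ZMod m)ˣ, 1 / √|sz (u : ZMod m)| ≤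
      2 * ∑ u : (ZMod m)ˣ, F (u : ZMod m).val := by
    refine (sum_le_sum (fun u _ => hpt u)).trans (le_of_eq ?_)
    rw [sum_add_distrib]
    have e1 : ∑ u : (ZMod m)ˣ, F ((w * u : (ZMod m)ˣ) : ZMod m).val =
        ∑ u : (ZMod m)ˣ, F (u : ZMod m).val :=
      Fintype.sum_equiv (Equiv.mulLeft w) _ _ (fun u => rfl)
    have e2 : ∑ u : (ZMod m)ˣ, F ((-(w * u) : (ZMod m)ˣ) : ZMod m).val =
        ∑ u : (ZMod m)ˣ, F (u : ZMod m).val := by
      exact Fintype.sum_equiv ((Equiv.mulLeft w).trans (Equiv.neg (ZMod m)ˣ)) _ _ (fun u => rfl)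
    rw [e1, e2]
    ring
  -- to the numbers coprime to `m`
  have hsum2 : ∑ u : (ZMod m)ˣ, F (u : ZMod m).val ≤ ∑ v ∈ fr m.primeFactors m, F v := by
    have hinj : Set.InjOn (fun u : (ZMod m)ˣ => (u : ZMod m).val)
        (Finset.univ : Finset (ZMod m)ˣ) := by
      intro a _ b _ hab
      apply Units.ext
      exact ZMod.val_injective m hab
    rw [← sum_image (f := F) hinj]
    apply sum_le_sum_of_subset_of_nonneg
    · intro v hv
      rw [mem_image] at hv
      obtain ⟨u, _, rfl⟩ := hv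
      have hc : Nat.Coprime (u : ZMod m).val m := ZMod.val_coe_unit_coprime u
      simp only [fr, mem_filter, mem_range]
      refine ⟨by have := ZMod.val_lt (u : ZMod m); omega, ?_, ?_⟩
      · rw [Nat.pos_iff_ne_zero]
        intro h
        exact u.ne_zero ((ZMod.val_eq_zero _).mp h)
      · intro p hp hpv
        have hpp := Nat.prime_of_mem_primeFactors hp
        have hpm := Nat.dvd_of_mem_primeFactors hp
        have := Nat.dvd_gcd hpv hpm
        rw [hc] at this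
        exact hpp.one_lt.ne' (Nat.dvd_one.mp this)
    · intro v _ _
      exact hF0 v
  have hsum3 : ∑ v ∈ fr m.primeFactors m, F v =
      √(m / 2) * ∑ v ∈ fr m.primeFactors m, 1 / √(v : ℝ) := by
    rw [mul_sum]
  have hest := main_est m.primeFactors (fun p hp => Nat.prime_of_mem_primeFactors hp) m hm0.le
  rw [Nat.floor_natCast] at hest
  have hprod : (m : ℝ) = ∏ p ∈ m.primeFactors, (p : ℝ) := by
    have := Nat.prod_primeFactors_of_squarefree hsq
    rw [← Nat.cast_prod, this]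
  have htot : (Nat.totient m : ℝ) = m * ∏ p ∈ m.primeFactors, (1 - 1 / (p : ℝ)) := by
    have := Nat.totient_eq_mul_prod_factors m
    have h2 := congrArg (fun x : ℚ => (x : ℝ)) this
    push_cast at h2
    rw [h2]
    congr 1
    apply prod_congr rfl
    intro p _
    rw [one_div]
  have htot2 : (Nat.totient m : ℝ) = ∏ p ∈ m.primeFactors, ((p : ℝ) - 1) := by
    rw [htot]
    nth_rewrite 1 [hprod]
    rw [← prod_mul_distrib]
    apply prod_congr rfl
    intro p hp
    have : (p : ℝ) ≠ 0 := by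
      exact_mod_cast (Nat.prime_of_mem_primeFactors hp).ne_zero
    field_simp
  have hsm : √(m : ℝ) * ∏ p ∈ m.primeFactors, (1 + 1 / √(p : ℝ)) =
      ∏ p ∈ m.primeFactors, (√(p : ℝ) + 1) := by
    have : √(m : ℝ) = ∏ p ∈ m.primeFactors, √(p : ℝ) := by
      conv_lhs => rw [hprod]
      rw [Real.sqrt_prod]
      intro p _
      positivity
    rw [this, ← prod_mul_distrib]
    apply prod_congr rfl
    intro p hp
    have : 0 < √(p : ℝ) := Real.sqrt_pos.mpr (by
      exact_mod_cast (Nat.prime_of_mem_primeFactors hp).pos)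
    field_simp
  have hpb := prod_bd m.primeFactors (by
    intro p hp
    refine ⟨Nat.prime_of_mem_primeFactors hp, ?_⟩
    rintro rfl
    have h2 := Nat.dvd_of_mem_primeFactors hp
    have := hodd
    rw [← Nat.not_even_iff_odd] at this
    exact this (even_iff_two_dvd.mpr h2))
  rw [← htot2, ← hsm] at hpb
  have hup := (abs_le.mp hest).2
  obtain ⟨S, hS⟩ : ∃ s, s = ∑ v ∈ fr m.primeFactors m, 1 / √(v : ℝ) := ⟨_, rfl⟩
  obtain ⟨Q, hQ⟩ : ∃ s, s = ∏ p ∈ m.primeFactors, (1 - 1 / (p : ℝ)) := ⟨_, rfl⟩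
  obtain ⟨E, hE⟩ : ∃ s, s = ∏ p ∈ m.primeFactors, (1 + 1 / √(p : ℝ)) := ⟨_, rfl⟩
  rw [← hS] at hsum3
  rw [← hS, ← hQ, ← hE] at hup
  rw [← hQ] at htot
  rw [← hE] at hpb
  have hs2 : √((m : ℝ) / 2) ≤ √(m : ℝ) * (3 / 4) := by
    have h1 : √(m : ℝ) * (3 / 4) = √((m : ℝ) * (9 / 16)) := by
      rw [Real.sqrt_mul hm0.le]
      congr 1
      rw [show (9 / 16 : ℝ) = (3 / 4) ^ 2 by norm_num, Real.sqrt_sq (by norm_num)]
    rw [h1]
    apply Real.sqrt_le_sqrt
    linarith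
  have hsmm : √(m : ℝ) * √(m : ℝ) = m := Real.mul_self_sqrt hm0.le
  have hφ : (0 : ℝ) ≤ Nat.totient m := by positivity
  have hS0 : 0 ≤ S := by
    rw [hS]
    apply sum_nonneg
    intro v _
    positivity
  have hsm0 : 0 ≤ √(m : ℝ) := by positivity
  calc ∑ u : (ZMod m)ˣ, 1 / √|sz (u : ZMod m)|
      ≤ 2 * (√(m / 2) * S) := by
        rw [← hsum3]
        linarith
    _ ≤ 2 * ((√(m : ℝ) * (3 / 4)) * S) := by
        have := mul_le_mul_of_nonneg_right hs2 hS0
        linarith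
    _ ≤ 2 * ((√(m : ℝ) * (3 / 4)) * (2 * √(m : ℝ) * Q + 2 * E)) := by
        have h7 : S ≤ 2 * √(m : ℝ) * Q + 2 * E := by linarith
        have := mul_le_mul_of_nonneg_left h7 (by positivity : 0 ≤ √(m : ℝ) * (3 / 4))
        linarith
    _ = 3 * ((√(m : ℝ) * √(m : ℝ)) * Q) + 3 * (√(m : ℝ) * E) := by ring
    _ = 3 * Nat.totient m + 3 * (√(m : ℝ) * E) := by rw [hsmm, htot]
    _ ≤ 9 * Nat.totient m := by linarith

end Pool.Agent.H20.U
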