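import Pool.Agent.H20.U.UB

/-!
# Project U (MP_0c7934_co), module UB2: `∑ 1 / √|sin (2 π u / m)|` over the units is `O (φ (m))`,
all odd `m ≥ 3`
-/

namespace Pool.Agent.H20.U

open Pool.Agent.H26.U Finset

theorem UB2 : ∃ C : ℝ, 0 < C ∧ ∀ (m : ℕ) [NeZero m], Odd m → 3 ≤ m →
    ∑ u : (ZMod m)ˣ, 1 / √|sz (u : ZMod m)| ≤ C * (Nat.totient m : ℝ) := by
  refine ⟨9, by norm_num, ?_⟩
  intro m _ hodd hm
  have hm0 : (0 : ℝ) < m := by exact_mod_cast (by omega : 0 < m)
  have hfact : Fact (1 < m) := ⟨by omega⟩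
  -- the unit 2
  have h2c : Nat.Coprime 2 m := (Nat.coprime_two_left).mpr hodd
  obtain ⟨w, hw⟩ : ∃ w : (ZMod m)ˣ, (w : ZMod m) = 2 := by
    refine ⟨ZMod.unitOfCoprime 2 h2c, ?_⟩
    simp
  -- the comparison function
  set F : ℕ → ℝ := fun v => √(m / 2) * (1 / √(v : ℝ)) with hF
  have hF0 : ∀ v, 0 ≤ F v := fun v => by positivity
  have hpt : ∀ u : (ZMod m)ˣ, 1 / √|sz (u : ZMod m)| ≤
      F ((w * u : (ZMod m)ˣ) : ZMod m).val + F ((-(w * u) : (ZMod m)ˣ) : ZMod m).val := by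
    intro u
    have hv : ((w * u : (ZMod m)ˣ) : ZMod m) = 2 * u := by
      rw [Units.val_mul, hw]
    have hv0 : ((w * u : (ZMod m)ˣ) : ZMod m) ≠ 0 := (w * u).ne_zero
    rw [Units.val_neg, hv, abs_sz_two]
    rw [hv] at hv0
    obtain ⟨v, hvv⟩ : ∃ v : ZMod m, v = 2 * u := ⟨_, rfl⟩
    rw [← hvv] at hv0 ⊢
    have h1 := norm_one_sub_ez_ge v
    have hval : v.val < m := ZMod.val_lt v
    have hval0 : 0 < v.val := by
      rw [Nat.pos_iff_ne_zero]
      intro h
      exact hv0 ((ZMod.val_eq_zero v).mp h)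
    have hneg : (-v).val = m - v.val := by
      rw [ZMod.neg_val, if_neg hv0]
    rw [hneg]
    have hcast : ((m - v.val : ℕ) : ℝ) = (m : ℝ) - v.val := by
      rw [Nat.cast_sub hval.le]
    have ha : (0 : ℝ) < v.val := by exact_mod_cast hval0
    have hb : (0 : ℝ) < (m : ℝ) - v.val := by
      have : (v.val : ℝ) < m := by exact_mod_cast hval
      linarith
    have gen : ∀ t : ℝ, 0 < t → 4 * t / m ≤ ‖1 - ez v‖ →
        1 / √(‖1 - ez v‖ / 2) ≤ √(m / 2) * (1 / √t) := by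
      intro t ht h
      have h2 : 2 * t / m ≤ ‖1 - ez v‖ / 2 := by
        have : 4 * t / m = 2 * (2 * t / m) := by ring
        rw [this] at h
        linarith
      have h3 : 0 < 2 * t / m := by positivity
      have h4 : √(2 * t / m) ≤ √(‖1 - ez v‖ / 2) := Real.sqrt_le_sqrt h2
      have h5 : 0 < √(2 * t / m) := Real.sqrt_pos.mpr h3
      have h6 : 1 / √(‖1 - ez v‖ / 2) ≤ 1 / √(2 * t / m) := one_div_le_one_div_of_le h5 h4
      refine h6.trans (le_of_eq ?_)
      rw [← Real.sqrt_one, ← Real.sqrt_div (by norm_num), ← Real.sqrt_div (by norm_num),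
        ← Real.sqrt_mul (by positivity)]
      congr 1
      field_simp
    rcases le_total (v.val : ℝ) ((m : ℝ) - v.val) with h | h
    · rw [min_eq_left h] at h1
      have := gen _ ha h1
      have h0 := hF0 (m - v.val)
      calc _ ≤ F v.val := this
        _ ≤ _ := by linarith
    · rw [min_eq_right h] at h1
      have := gen _ hb h1
      have h0 := hF0 v.val
      rw [← hcast] at this
      calc _ ≤ F (m - v.val) := this
        _ ≤ _ := by linarith
  have hsum1 : ∑ u : (ZMod m)ˣ, 1 / √|sz (u : ZMod m)| ≤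
      2 * ∑ u : (ZMod m)ˣ, F (u : ZMod m).val := by
    refine (sum_le_sum (fun u _ => hpt u)).trans (le_of_eq ?_)
    rw [sum_add_distrib]
    have e1 : ∑ u : (ZMod m)ˣ, F ((w * u : (ZMod m)ˣ) : ZMod m).val =
        ∑ u : (ZMod m)ˣ, F (u : ZMod m).val :=
      Fintype.sum_equiv (Equiv.mulLeft w) _ _ (fun u => rfl)
    have e2 : ∑ u : (ZMod m)ˣ, F ((-(w * u) : (ZMod m)ˣ) : ZMod m).val =
        ∑ u : (ZMod m)ˣ, F (u : ZMod m).val := by
      exact Fintype.sum_equiv ((Equiv.mulLeft w).trans (Equiv.neg (ZMod m)ˣ)) _ _ (fun u => rfl)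
    rw [e1, e2]
    ring
  -- to the numbers coprime to `m`
  have hsum2 : ∑ u : (ZMod m)ˣ, F (u : ZMod m).val ≤ ∑ v ∈ fr m.primeFactors m, F v := by
    have hinj : Set.InjOn (fun u : (ZMod m)ˣ => (u : ZMod m).val)
        (Finset.univ : Finset (ZMod m)ˣ) := by
      intro a _ b _ hab
      apply Units.ext
      exact ZMod.val_injective m hab
    rw [← sum_image (f := F) hinj]
    apply sum_le_sum_of_subset_of_nonneg
    · intro v hv
      rw [mem_image] at hv
      obtain ⟨u, _, rfl⟩ := hv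
      have hc : Nat.Coprime (u : ZMod m).val m := ZMod.val_coe_unit_coprime u
      simp only [fr, mem_filter, mem_range]
      refine ⟨by have := ZMod.val_lt (u : ZMod m); omega, ?_, ?_⟩
      · rw [Nat.pos_iff_ne_zero]
        intro h
        exact u.ne_zero ((ZMod.val_eq_zero _).mp h)
      · intro p hp hpv
        have hpp := Nat.prime_of_mem_primeFactors hp
        have hpm := Nat.dvd_of_mem_primeFactors hp
        have := Nat.dvd_gcd hpv hpm
        rw [hc] at this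
        exact hpp.one_lt.ne' (Nat.dvd_one.mp this)
    · intro v _ _
      exact hF0 v
  have hsum3 : ∑ v ∈ fr m.primeFactors m, F v =
      √(m / 2) * ∑ v ∈ fr m.primeFactors m, 1 / √(v : ℝ) := by
    rw [mul_sum]
  have hest := main_est m.primeFactors (fun p hp => Nat.prime_of_mem_primeFactors hp) m hm0.le
  rw [Nat.floor_natCast] at hest
  have htot : (Nat.totient m : ℝ) = m * ∏ p ∈ m.primeFactors, (1 - 1 / (p : ℝ)) := by
    have := Nat.totient_eq_mul_prod_factors m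
    have h2 := congrArg (fun x : ℚ => (x : ℝ)) this
    push_cast at h2
    rw [h2]
    congr 1
    apply prod_congr rfl
    intro p _
    rw [one_div]
  have hrad : ∏ p ∈ m.primeFactors, √(p : ℝ) ≤ √(m : ℝ) := by
    rw [← Real.sqrt_prod _ (fun p _ => by positivity)]
    apply Real.sqrt_le_sqrt
    rw [← Nat.cast_prod]
    exact_mod_cast Nat.le_of_dvd (by omega) (Nat.prod_primeFactors_dvd m)
  have hpb := prod_bd m.primeFactors (by
    intro p hp
    refine ⟨Nat.prime_of_mem_primeFactors hp, ?_⟩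
    rintro rfl
    have h2 := Nat.dvd_of_mem_primeFactors hp
    have := hodd
    rw [← Nat.not_even_iff_odd] at this
    exact this (even_iff_two_dvd.mpr h2))
  have hr0 : 0 < ∏ p ∈ m.primeFactors, √(p : ℝ) := by
    apply prod_pos
    intro p hp
    exact Real.sqrt_pos.mpr (by exact_mod_cast (Nat.prime_of_mem_primeFactors hp).pos)
  have e1 : ∏ p ∈ m.primeFactors, (√(p : ℝ) + 1) =
      (∏ p ∈ m.primeFactors, √(p : ℝ)) * ∏ p ∈ m.primeFactors, (1 + 1 / √(p : ℝ)) := by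
    rw [← prod_mul_distrib]
    apply prod_congr rfl
    intro p hp
    have : 0 < √(p : ℝ) := Real.sqrt_pos.mpr (by
      exact_mod_cast (Nat.prime_of_mem_primeFactors hp).pos)
    field_simp
  have e2 : ∏ p ∈ m.primeFactors, ((p : ℝ) - 1) =
      (∏ p ∈ m.primeFactors, √(p : ℝ)) * ((∏ p ∈ m.primeFactors, √(p : ℝ)) *
        ∏ p ∈ m.primeFactors, (1 - 1 / (p : ℝ))) := by
    rw [← prod_mul_distrib, ← prod_mul_distrib]
    apply prod_congr rfl
    intro p hp
    have h1 : (0 : ℝ) < p := by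
      exact_mod_cast (Nat.prime_of_mem_primeFactors hp).pos
    have h2 : √(p : ℝ) * √(p : ℝ) = p := Real.mul_self_sqrt h1.le
    rw [← mul_assoc, h2]
    field_simp
  have hQ0 : 0 ≤ ∏ p ∈ m.primeFactors, (1 - 1 / (p : ℝ)) := by
    apply prod_nonneg
    intro p hp
    have h1 : (1 : ℝ) ≤ p := by
      exact_mod_cast (Nat.prime_of_mem_primeFactors hp).one_lt.le
    have : 1 / (p : ℝ) ≤ 1 := by
      rw [div_le_one (by linarith)]
      exact h1
    linarith
  have hE2 : ∏ p ∈ m.primeFactors, (1 + 1 / √(p : ℝ)) ≤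
      2 * (√(m : ℝ) * ∏ p ∈ m.primeFactors, (1 - 1 / (p : ℝ))) := by
    rw [e1, e2, ← mul_assoc 2, mul_comm 2, mul_assoc] at hpb
    have h3 := le_of_mul_le_mul_left hpb hr0
    refine h3.trans ?_
    have := mul_le_mul_of_nonneg_right hrad hQ0
    linarith
  have hpb : √(m : ℝ) * ∏ p ∈ m.primeFactors, (1 + 1 / √(p : ℝ)) ≤
      2 * (Nat.totient m : ℝ) := by
    have h4 := mul_le_mul_of_nonneg_left hE2 (Real.sqrt_nonneg (m : ℝ))
    refine h4.trans (le_of_eq ?_)
    have h5 : √(m : ℝ) * √(m : ℝ) = m := Real.mul_self_sqrt hm0.le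
    rw [htot]
    calc √(m : ℝ) * (2 * (√(m : ℝ) * ∏ p ∈ m.primeFactors, (1 - 1 / (p : ℝ)))) =
        2 * ((√(m : ℝ) * √(m : ℝ)) * ∏ p ∈ m.primeFactors, (1 - 1 / (p : ℝ))) := by ring
      _ = _ := by rw [h5]
  have hup := (abs_le.mp hest).2
  obtain ⟨S, hS⟩ : ∃ s, s = ∑ v ∈ fr m.primeFactors m, 1 / √(v : ℝ) := ⟨_, rfl⟩
  obtain ⟨Q, hQ⟩ : ∃ s, s = ∏ p ∈ m.primeFactors, (1 - 1 / (p : ℝ)) := ⟨_, rfl⟩
  obtain ⟨E, hE⟩ : ∃ s, s = ∏ p ∈ m.primeFactors, (1 + 1 / √(p : ℝ)) := ⟨_, rfl⟩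
  rw [← hS] at hsum3
  rw [← hS, ← hQ, ← hE] at hup
  rw [← hQ] at htot
  rw [← hE] at hpb
  have hs2 : √((m : ℝ) / 2) ≤ √(m : ℝ) * (3 / 4) := by
    have h1 : √(m : ℝ) * (3 / 4) = √((m : ℝ) * (9 / 16)) := by
      rw [Real.sqrt_mul hm0.le]
      congr 1
      rw [show (9 / 16 : ℝ) = (3 / 4) ^ 2 by norm_num, Real.sqrt_sq (by norm_num)]
    rw [h1]
    apply Real.sqrt_le_sqrt
    linarith
  have hsmm : √(m : ℝ) * √(m : ℝ) = m := Real.mul_self_sqrt hm0.le
  have hφ : (0 : ℝ) ≤ Nat.totient m := by positivity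
  have hS0 : 0 ≤ S := by
    rw [hS]
    apply sum_nonneg
    intro v _
    positivity
  have hsm0 : 0 ≤ √(m : ℝ) := by positivity
  calc ∑ u : (ZMod m)ˣ, 1 / √|sz (u : ZMod m)|
      ≤ 2 * (√(m / 2) * S) := by
        rw [← hsum3]
        linarith
    _ ≤ 2 * ((√(m : ℝ) * (3 / 4)) * S) := by
        have := mul_le_mul_of_nonneg_right hs2 hS0
        linarith
    _ ≤ 2 * ((√(m : ℝ) * (3 / 4)) * (2 * √(m : ℝ) * Q + 2 * E)) := by
        have h7 : S ≤ 2 * √(m : ℝ) * Q + 2 * E := by linarith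
        have := mul_le_mul_of_nonneg_left h7 (by positivity : 0 ≤ √(m : ℝ) * (3 / 4))
        linarith
    _ = 3 * ((√(m : ℝ) * √(m : ℝ)) * Q) + 3 * (√(m : ℝ) * E) := by ring
    _ = 3 * Nat.totient m + 3 * (√(m : ℝ) * E) := by rw [hsmm, htot]
    _ ≤ 9 * Nat.totient m := by linarith

end Pool.Agent.H20.U
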